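import Pool.Agent.H888R3.ForcesA

set_option autoImplicit false
set_option linter.unusedSectionVars false

namespace Pool.Agent.H888R3

open Finset

lemma exists_top {E : Type*} [DecidableEq E] (f : E → ℤ) (s : Finset E) :
    ∀ r : ℕ, r ≤ s.card → ∃ Q ⊆ s, Q.card = r ∧ ∀ x ∈ Q, ∀ y ∈ s \ Q, f y ≤ f x := by
  intro r
  induction r with
  | zero => intro _; exact ⟨∅, empty_subset _, card_empty, by simp⟩
  | succ r ih =>
    intro hr
    obtain ⟨Q, hQ, hc, ht⟩ := ih (by omega)
    have hne : (s \ Q).Nonempty := by
      rw [← card_pos, card_sdiff_of_subset hQ]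
      omega
    obtain ⟨x, hx, hmax⟩ := exists_max_image (s \ Q) f hne
    rw [mem_sdiff] at hx
    refine ⟨insert x Q, ?_, ?_, ?_⟩
    · intro y hy
      rw [mem_insert] at hy
      rcases hy with rfl | hy
      · exact hx.1
      · exact hQ hy
    · rw [card_insert_of_notMem hx.2, hc]
    · intro x' hx' y hy
      rw [mem_sdiff, mem_insert, not_or] at hy
      have hy' : y ∈ s \ Q := mem_sdiff.mpr ⟨hy.1, hy.2.2⟩
      rw [mem_insert] at hx'
      rcases hx' with rfl | hx'
      · exact hmax y hy'
      · exact ht x' hx' y hy'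

section
variable {V : Type*} [Fintype V] [DecidableEq V]

/-- degree of `x` into `W` in the graph with edge set `B` -/
def dg (B : Finset (Sym2 V)) (W : Finset V) (x : V) : ℕ := (W.filter (fun y => s(x, y) ∈ B)).card

/-- the edges between `T` and `U` -/
def star (T U : Finset V) : Finset (Sym2 V) := (T ×ˢ U).image (fun p => s(p.1, p.2))

lemma mem_star {T U : Finset V} {z : Sym2 V} : z ∈ star T U ↔ ∃ x ∈ T, ∃ u ∈ U, s(x, u) = z := by
  unfold star
  simp only [mem_image, mem_product, Prod.exists]
  constructor
  · rintro ⟨a, b, ⟨h1, h2⟩, h3⟩; exact ⟨a, h1, b, h2, h3⟩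
  · rintro ⟨a, h1, b, h2, h3⟩; exact ⟨a, b, ⟨h1, h2⟩, h3⟩

lemma card_star (T U : Finset V) : (star T U).card ≤ T.card * U.card := by
  unfold star
  exact card_image_le.trans (by rw [card_product])

/-- the board -/
def Bd (V : Type*) [Fintype V] [DecidableEq V] : Finset (Sym2 V) :=
  univ.filter (fun z => ¬ z.IsDiag)

lemma mem_Bd {z : Sym2 V} : z ∈ Bd V ↔ ¬ z.IsDiag := by simp [Bd]

/-- the state of the play inside a phase -/
structure St (M B : Finset (Sym2 V)) (K U C D : Finset V) : Prop where
  clique : ∀ u ∈ K, ∀ v ∈ K, u ≠ v → s(u, v) ∈ M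
  joinD : ∀ u ∈ K, ∀ v ∈ D, s(u, v) ∈ M
  joinC : ∀ u ∈ K, u ∉ U → ∀ v ∈ C, s(u, v) ∈ M
  safe : ∀ u ∈ U, ∀ v ∈ C, s(u, v) ∉ B
  hU : U ⊆ K
  hKC : Disjoint K C
  hKD : Disjoint K D
  hCD : Disjoint C D

lemma star_phase {g b m : ℕ} (hg : 1 ≤ g) {goal : Finset (Sym2 V) → Prop} (U : Finset V)
    (hUm : g * U.card ≤ m) (w : V → ℤ) :
    ∀ (n : ℕ) (M B : Finset (Sym2 V)) (K C D : Finset V), C.card ≤ n → M ⊆ Bd V → B ⊆ Bd V →
      Disjoint M B → St M B K U C D → (∀ x ∈ C, 0 ≤ w x) →
      (∀ (M' B' : Finset (Sym2 V)) (D' : Finset V), M' ⊆ Bd V → B' ⊆ Bd V → B ⊆ B' →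
        Disjoint M' B' → (∀ u ∈ K, ∀ v ∈ K, u ≠ v → s(u, v) ∈ M') →
        (∀ u ∈ K, ∀ v ∈ D', s(u, v) ∈ M') → Disjoint K D' → D' ⊆ C ∪ D →
        (g : ℤ) * ∑ x ∈ C, w x + (g + b) * ∑ x ∈ D, w x ≤ (g + b) * ∑ x ∈ D', w x →
        (B' \ B).card + b * D.card ≤ b * D'.card → Forces m b (Bd V) goal M' B') →
      Forces m b (Bd V) goal M B := by
  intro n
  induction n with
  | zero =>
    intro M B K C D hC hM hB hMB hS hw hcont
    have hC0 : C = ∅ := card_eq_zero.mp (Nat.le_zero.mp hC)
    subst hC0
    exact hcont M B D hM hB (Subset.refl _) hMB hS.clique hS.joinD hS.hKD (by simp)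
      (by simp) (by simp)
  | succ n ih =>
    intro M B K C D hC hM hB hMB hS hw hcont
    by_cases hC0 : C = ∅
    · subst hC0
      exact hcont M B D hM hB (Subset.refl _) hMB hS.clique hS.joinD hS.hKD (by simp)
        (by simp) (by simp)
    have hCne : C.Nonempty := nonempty_iff_ne_empty.mpr hC0
    have hCpos : 0 < C.card := hCne.card_pos
    obtain ⟨T, hTC, hTc, htop⟩ := exists_top w C (min g C.card) (min_le_right _ _)
    have hTpos : 0 < T.card := by rw [hTc]; exact lt_min (by omega) hCpos
    have hUC : Disjoint U C := hS.hKC.mono_left hS.hU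
    have hTD : Disjoint T D := hS.hCD.mono_left hTC
    have hsumT : ∑ x ∈ C \ T, w x + ∑ x ∈ T, w x = ∑ x ∈ C, w x := sum_sdiff hTC
    have hTnn : 0 ≤ ∑ x ∈ T, w x := sum_nonneg fun x hx => hw x (hTC hx)
    have hDT : ∑ x ∈ D ∪ T, w x = ∑ x ∈ D, w x + ∑ x ∈ T, w x := sum_union hTD.symm
    have hDTc : (D ∪ T).card = D.card + T.card := card_union_of_disjoint hTD.symm
    -- general continuation from a position where `star T U` is claimed
    have key : ∀ (M' B' : Finset (Sym2 V)), M ⊆ M' → star T U ⊆ M' → M' ⊆ Bd V → B ⊆ B' →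
        B' ⊆ Bd V → Disjoint M' B' → (B' \ B).card ≤ b → Forces m b (Bd V) goal M' B' := by
      intro M' B' hMM hst hM' hBB hB' hMB' hbc
      set X : Finset V := (C \ T).filter (fun x => ∃ u ∈ U, s(x, u) ∈ B') with hX
      have hXC : X ⊆ C \ T := filter_subset _ _
      have hXcard : X.card ≤ b := by
        refine le_trans ?_ hbc
        have hch : ∀ x ∈ X, ∃ u, u ∈ U ∧ s(x, u) ∈ B' := by
          intro x hx
          obtain ⟨u, hu, h⟩ := (mem_filter.mp hx).2
          exact ⟨u, hu, h⟩
        choose! f hf using hch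
        apply card_le_card_of_injOn (fun x => s(x, f x))
        · intro x hx
          have h1 := hf x hx
          have hxC : x ∈ C := (mem_sdiff.mp (hXC hx)).1
          rw [mem_coe, mem_sdiff]
          refine ⟨h1.2, ?_⟩
          have := hS.safe (f x) h1.1 x hxC
          show s(x, f x) ∉ B
          rw [Sym2.eq_swap]
          exact this
        · intro x hx y hy hxy
          have hxC : x ∈ C := (mem_sdiff.mp (hXC hx)).1
          have hyC : y ∈ C := (mem_sdiff.mp (hXC hy)).1
          simp only [Sym2.eq_iff] at hxy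
          rcases hxy with h | h
          · exact h.1
          · exfalso
            have h2 := (hf y hy).1
            rw [← h.1] at h2
            exact (disjoint_left.mp hUC) h2 hxC
      have hXw : (g : ℤ) * ∑ x ∈ X, w x ≤ b * ∑ x ∈ T, w x := by
        by_cases hgc : g ≤ C.card
        · have hTg : T.card = g := by rw [hTc]; exact min_eq_left hgc
          have h1 : ∀ x ∈ X, (g : ℤ) * w x ≤ ∑ t ∈ T, w t := by
            intro x hx
            calc (g : ℤ) * w x = ∑ t ∈ T, w x := by rw [sum_const, hTg]; simp
              _ ≤ ∑ t ∈ T, w t := sum_le_sum fun t ht => htop t ht x (hXC hx)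
          calc (g : ℤ) * ∑ x ∈ X, w x = ∑ x ∈ X, (g : ℤ) * w x := by rw [mul_sum]
            _ ≤ ∑ x ∈ X, ∑ t ∈ T, w t := sum_le_sum h1
            _ = X.card * ∑ t ∈ T, w t := by rw [sum_const]; simp
            _ ≤ b * ∑ t ∈ T, w t := by
              apply mul_le_mul_of_nonneg_right _ hTnn
              exact_mod_cast hXcard
        · have hTC' : T = C := by
            apply eq_of_subset_of_card_le hTC
            rw [hTc, min_eq_right (by omega)]
          have hX0 : X = ∅ := by
            rw [← subset_empty]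
            refine hXC.trans ?_
            rw [hTC', sdiff_self]
            exact Subset.refl _
          rw [hX0]
          simp only [sum_empty, mul_zero]
          positivity
      have hsumX : ∑ x ∈ (C \ T) \ X, w x + ∑ x ∈ X, w x = ∑ x ∈ C \ T, w x := sum_sdiff hXC
      have hC'sub : (C \ T) \ X ⊆ C := sdiff_subset.trans sdiff_subset
      have hC'c : ((C \ T) \ X).card ≤ n := by
        have h1 : ((C \ T) \ X).card ≤ (C \ T).card := card_le_card sdiff_subset
        have h2 : (C \ T).card = C.card - T.card := card_sdiff_of_subset hTC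
        omega
      refine ih M' B' K ((C \ T) \ X) (D ∪ T) hC'c hM' hB' hMB' ?_ ?_ ?_
      · refine ⟨?_, ?_, ?_, ?_, hS.hU, ?_, ?_, ?_⟩
        · intro u hu v hv huv; exact hMM (hS.clique u hu v hv huv)
        · intro u hu v hv
          rw [mem_union] at hv
          rcases hv with hv | hv
          · exact hMM (hS.joinD u hu v hv)
          · by_cases huU : u ∈ U
            · apply hst
              rw [mem_star]
              exact ⟨v, hv, u, huU, Sym2.eq_swap⟩
            · exact hMM (hS.joinC u hu huU v (hTC hv))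
        · intro u hu huU v hv
          exact hMM (hS.joinC u hu huU v (hC'sub hv))
        · intro u hu v hv hcon
          rw [mem_sdiff] at hv
          apply hv.2
          rw [hX, mem_filter]
          refine ⟨hv.1, u, hu, ?_⟩
          rwa [Sym2.eq_swap]
        · exact hS.hKC.mono_right hC'sub
        · rw [disjoint_union_right]
          exact ⟨hS.hKD, hS.hKC.mono_right hTC⟩
        · rw [disjoint_union_right]
          refine ⟨hS.hCD.mono_left hC'sub, ?_⟩
          exact (sdiff_disjoint (s := T) (t := C)).mono_left sdiff_subset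
      · intro x hx; exact hw x (hC'sub hx)
      · intro M'' B'' D' hM'' hB'' hBB'' hMB'' hcl hjn hdis hsub hwt hct
        refine hcont M'' B'' D' hM'' hB'' (hBB.trans hBB'') hMB'' hcl hjn hdis ?_ ?_ ?_
        · intro x hx
          have := hsub hx
          simp only [mem_union, mem_sdiff] at this ⊢
          rcases this with h | h | h
          · exact Or.inl h.1.1
          · exact Or.inr h
          · exact Or.inl (hTC h)
        · rw [hDT] at hwt
          nlinarith
        · have h3 : (B'' \ B).card ≤ (B'' \ B').card + (B' \ B).card := by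
            calc (B'' \ B).card ≤ ((B'' \ B') ∪ (B' \ B)).card := by
                  apply card_le_card
                  intro z hz
                  simp only [mem_union, mem_sdiff] at hz ⊢
                  by_cases h : z ∈ B'
                  · exact Or.inr ⟨h, hz.2⟩
                  · exact Or.inl ⟨hz.1, h⟩
              _ ≤ _ := card_union_le _ _
          rw [hDTc, mul_add] at hct
          have h4 : b ≤ b * T.card := Nat.le_mul_of_pos_right b hTpos
          omega
    by_cases hsM : star T U ⊆ M
    · exact key M B (Subset.refl _) hsM hM (Subset.refl _) hB hMB (by simp)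
    · refine forces_step hM hB hMB (star T U) ?_ ?_ ?_ hsM ?_
      · intro z hz
        obtain ⟨x, hx, u, hu, rfl⟩ := mem_star.mp hz
        rw [mem_Bd, Sym2.mk_isDiag_iff]
        rintro rfl
        exact (disjoint_left.mp hUC) hu (hTC hx)
      · rw [disjoint_left]
        intro z hz hzB
        obtain ⟨x, hx, u, hu, rfl⟩ := mem_star.mp hz
        have := hS.safe u hu x (hTC hx)
        rw [Sym2.eq_swap] at this
        exact this hzB
      · calc (star T U).card ≤ T.card * U.card := card_star T U
          _ ≤ g * U.card := by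
            apply Nat.mul_le_mul_right
            rw [hTc]; exact min_le_left _ _
          _ ≤ m := hUm
      · intro M' B' h1 h2 h3 h4 h5 h6
        exact key M' B' (subset_union_left.trans h1) (subset_union_right.trans h1) h2 h3 h4 h5 h6

end

end Pool.Agent.H888R3
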