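import Pool.Agent.H888R3.BlkA

set_option autoImplicit false
set_option linter.unusedSectionVars false

namespace Pool.Agent.H888R3

open Finset

section
variable {V : Type*} [Fintype V] [DecidableEq V]

lemma pairs_le (S W : Finset V) (R : Finset (Sym2 V)) :
    ((S ×ˢ W).filter (fun p => s(p.1, p.2) ∈ R)).card ≤ 2 * R.card := by
  apply card_le_mul_card_image_of_maps_to (f := fun p : V × V => s(p.1, p.2))
  · intro p hp
    exact (mem_filter.mp hp).2
  · intro z _
    induction z using Sym2.ind with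
    | _ a c =>
      calc _ ≤ ({(a, c), (c, a)} : Finset (V × V)).card := by
            apply card_le_card
            intro p hp
            have h := (mem_filter.mp hp).2
            simp only [Sym2.eq_iff] at h
            simp only [mem_insert, mem_singleton, Prod.ext_iff]
            exact h
        _ ≤ 2 := card_le_two

lemma sum_dg_eq (B : Finset (Sym2 V)) (S W : Finset V) :
    ∑ x ∈ S, dg B W x = ((S ×ˢ W).filter (fun p => s(p.1, p.2) ∈ B)).card := by
  unfold dg
  rw [card_filter, sum_product]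
  apply sum_congr rfl
  intro x _
  rw [card_filter]

lemma sum_dg_le (B B' : Finset (Sym2 V)) (S W : Finset V) :
    ∑ x ∈ S, dg B' W x ≤ ∑ x ∈ S, dg B W x + 2 * (B' \ B).card := by
  rw [sum_dg_eq, sum_dg_eq]
  calc _ ≤ (((S ×ˢ W).filter (fun p => s(p.1, p.2) ∈ B)) ∪
        ((S ×ˢ W).filter (fun p => s(p.1, p.2) ∈ B' \ B))).card := by
        apply card_le_card
        intro p hp
        rw [mem_filter] at hp
        rw [mem_union, mem_filter, mem_filter, mem_sdiff]
        by_cases h : s(p.1, p.2) ∈ B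
        · exact Or.inl ⟨hp.1, h⟩
        · exact Or.inr ⟨hp.1, hp.2, h⟩
    _ ≤ _ := (card_union_le _ _).trans (Nat.add_le_add_left (pairs_le _ _ _) _)

lemma dg_mono (B : Finset (Sym2 V)) {W W' : Finset V} (h : W ⊆ W') (x : V) :
    dg B W x ≤ dg B W' x := by
  unfold dg
  exact card_le_card (filter_subset_filter _ h)

/-- potential -/
def Pot (l : ℕ) (B : Finset (Sym2 V)) (W : Finset V) : ℤ := ∑ x ∈ W, ((l : ℤ) - dg B W x)

/-- choice of the block -/
lemma exists_block (l : ℕ) (B : Finset (Sym2 V)) (W : Finset V) :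
    ∀ k : ℕ, (l : ℤ) * (k * (l + 1)) < Pot l B W →
      ∃ U ⊆ W, U.card = k ∧ (∀ u ∈ U, dg B W u ≤ l) ∧
        (∀ u ∈ U, ∀ v ∈ U, u ≠ v → s(u, v) ∉ B) := by
  intro k
  induction k with
  | zero => intro _; exact ⟨∅, empty_subset _, card_empty, by simp, by simp⟩
  | succ k ih =>
    intro h
    have h0 : (l : ℤ) * (k * (l + 1)) ≤ (l : ℤ) * ((k + 1 : ℕ) * (l + 1)) := by
      push_cast
      nlinarith [Nat.zero_le l]
    obtain ⟨U, hUW, hUc, hUd, hUi⟩ := ih (lt_of_le_of_lt h0 h)
    -- the set of vertices of small degree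
    set L : Finset V := W.filter (fun x => dg B W x < l) with hL
    have hPot : Pot l B W ≤ l * L.card := by
      unfold Pot
      calc ∑ x ∈ W, ((l : ℤ) - dg B W x) ≤ ∑ x ∈ W, if dg B W x < l then (l : ℤ) else 0 := by
            apply sum_le_sum
            intro x _
            split_ifs with hx
            · have : (0 : ℤ) ≤ dg B W x := by positivity
              linarith
            · have : (l : ℤ) ≤ dg B W x := by exact_mod_cast not_lt.mp hx
              linarith
        _ = l * L.card := by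
            rw [← sum_filter, sum_const, hL]
            simp [mul_comm]
    set Z : Finset V := U ∪ U.biUnion (fun u => W.filter (fun y => s(u, y) ∈ B)) with hZ
    have hZc : Z.card ≤ k * (l + 1) := by
      calc Z.card ≤ U.card + (U.biUnion (fun u => W.filter (fun y => s(u, y) ∈ B))).card :=
            card_union_le _ _
        _ ≤ U.card + U.card * l := by
            apply Nat.add_le_add_left
            apply card_biUnion_le_card_mul
            intro u hu
            exact hUd u hu
        _ = k * (l + 1) := by rw [hUc]; ring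
    have hlt : Z.card < L.card := by
      have hl : (0 : ℤ) ≤ l := by positivity
      have h1 : (l : ℤ) * ((k + 1 : ℕ) * (l + 1)) < l * L.card := lt_of_lt_of_le h hPot
      have hl0 : (0 : ℤ) < l := by
        rcases hl.lt_or_eq with h2 | h2
        · exact h2
        · rw [← h2] at h1; simp at h1
      have h2 : ((k + 1 : ℕ) * (l + 1) : ℤ) < L.card := lt_of_mul_lt_mul_left h1 hl
      have h3 : (k + 1) * (l + 1) < L.card := by exact_mod_cast h2
      have h4 : k * (l + 1) ≤ (k + 1) * (l + 1) := Nat.mul_le_mul_right _ (by omega)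
      omega
    obtain ⟨x, hxL, hxZ⟩ : ∃ x ∈ L, x ∉ Z := by
      by_contra hcon
      push Not at hcon
      exact absurd (card_le_card (fun x hx => hcon x hx)) (by omega)
    rw [hZ, mem_union, not_or, mem_biUnion] at hxZ
    obtain ⟨hxU, hxN⟩ := hxZ
    rw [hL, mem_filter] at hxL
    have hxn : ∀ u ∈ U, s(u, x) ∉ B := by
      intro u hu hc
      exact hxN ⟨u, hu, mem_filter.mpr ⟨hxL.1, hc⟩⟩
    refine ⟨insert x U, ?_, ?_, ?_, ?_⟩
    · intro y hy
      rcases mem_insert.mp hy with rfl | hy
      · exact hxL.1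
      · exact hUW hy
    · rw [card_insert_of_notMem hxU, hUc]
    · intro u hu
      rcases mem_insert.mp hu with rfl | hu
      · exact hxL.2.le
      · exact hUd u hu
    · intro u hu v hv huv
      rcases mem_insert.mp hu with h1 | h1 <;> rcases mem_insert.mp hv with h2 | h2
      · exact absurd (h1.trans h2.symm) huv
      · rw [h1, Sym2.eq_swap]; exact hxn v h2
      · rw [h2]; exact hxn u h1
      · exact hUi u h1 v h2 huv

/-- position at the beginning of a phase -/
structure Gd (M B : Finset (Sym2 V)) (K W : Finset V) : Prop where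
  hM : M ⊆ Bd V
  hB : B ⊆ Bd V
  hMB : Disjoint M B
  clique : ∀ u ∈ K, ∀ v ∈ K, u ≠ v → s(u, v) ∈ M
  join : ∀ u ∈ K, ∀ v ∈ W, s(u, v) ∈ M
  hKW : Disjoint K W

lemma phase {g b m k l : ℕ} (hg : 1 ≤ g) (hgk : g * k ≤ m) (hk : k.choose 2 ≤ m)
    {goal : Finset (Sym2 V) → Prop} {M B : Finset (Sym2 V)} {K W : Finset V} (h : Gd M B K W)
    (hPot : (l : ℤ) * (k * (l + 1)) < Pot l B W)
    (hcont : ∀ (M' B' : Finset (Sym2 V)) (K' W' : Finset V), Gd M' B' K' W' →
      K'.card = K.card + k →
      (g : ℤ) * (Pot l B W - 2 * b - l * (k + k * l + 2 * b)) ≤ (g + b) * Pot (l + 2 * b) B' W' →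
      Forces m b (Bd V) goal M' B') :
    Forces m b (Bd V) goal M B := by
  obtain ⟨U, hUW, hUc, hUd, hUi⟩ := exists_block l B W k hPot
  have hKU : Disjoint K U := h.hKW.mono_right hUW
  set Q0 : Finset (Sym2 V) := U.offDiag.image (Function.uncurry Sym2.mk) with hQ0
  have hQmem : ∀ u ∈ U, ∀ v ∈ U, u ≠ v → s(u, v) ∈ Q0 := by
    intro u hu v hv huv
    rw [hQ0, mem_image]
    exact ⟨(u, v), mem_offDiag.mpr ⟨hu, hv, huv⟩, rfl⟩
  have hQform : ∀ z ∈ Q0, ∃ u ∈ U, ∃ v ∈ U, u ≠ v ∧ s(u, v) = z := by
    intro z hz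
    rw [hQ0, mem_image] at hz
    obtain ⟨⟨u, v⟩, hp, rfl⟩ := hz
    rw [mem_offDiag] at hp
    exact ⟨u, hp.1, v, hp.2.1, hp.2.2, rfl⟩
  have key : ∀ (M1 B1 : Finset (Sym2 V)), M ⊆ M1 → Q0 ⊆ M1 → M1 ⊆ Bd V → B ⊆ B1 → B1 ⊆ Bd V →
      Disjoint M1 B1 → (B1 \ B).card ≤ b → Forces m b (Bd V) goal M1 B1 := by
    intro M1 B1 hMM hQM hM1 hBB hB1 hMB1 hbc
    set w : V → ℤ := fun x => (l : ℤ) - dg B1 W x with hw
    set C0 : Finset V := W.filter (fun x => (x ∉ U ∧ ∀ u ∈ U, s(u, x) ∉ B1) ∧ 0 ≤ w x) with hC0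
    have hC0W : C0 ⊆ W := filter_subset _ _
    have hsumW : Pot l B W - 2 * b ≤ ∑ x ∈ W, w x := by
      have h1 := sum_dg_le B B1 W W
      have h2 : ((∑ x ∈ W, dg B1 W x : ℕ) : ℤ) ≤ (∑ x ∈ W, dg B W x : ℕ) + 2 * b := by
        have h3 : ((∑ x ∈ W, dg B1 W x : ℕ) : ℤ) ≤ ((∑ x ∈ W, dg B W x + 2 * (B1 \ B).card : ℕ) : ℤ) := by
          exact_mod_cast h1
        have h4 : ((B1 \ B).card : ℤ) ≤ b := by exact_mod_cast hbc
        push_cast at h3 ⊢
        linarith
      unfold Pot
      rw [hw]
      rw [sum_sub_distrib, sum_sub_distrib]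
      push_cast at h2
      linarith
    set N : Finset V := W.filter (fun x => ¬ (x ∉ U ∧ ∀ u ∈ U, s(u, x) ∉ B1)) with hN
    have hNc : N.card ≤ k + k * l + 2 * b := by
      calc N.card ≤ (U ∪ U.biUnion (fun u => W.filter (fun y => s(u, y) ∈ B1))).card := by
            apply card_le_card
            intro x hx
            rw [hN, mem_filter] at hx
            rw [mem_union, mem_biUnion]
            by_contra hcon
            rw [not_or] at hcon
            apply hx.2
            refine ⟨hcon.1, ?_⟩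
            intro u hu hc
            exact hcon.2 ⟨u, hu, mem_filter.mpr ⟨hx.1, hc⟩⟩
        _ ≤ U.card + (U.biUnion (fun u => W.filter (fun y => s(u, y) ∈ B1))).card :=
            card_union_le _ _
        _ ≤ U.card + ∑ u ∈ U, dg B1 W u := Nat.add_le_add_left card_biUnion_le _
        _ ≤ U.card + (∑ u ∈ U, dg B W u + 2 * (B1 \ B).card) :=
            Nat.add_le_add_left (sum_dg_le _ _ _ _) _
        _ ≤ k + k * l + 2 * b := by
            have h1 : ∑ u ∈ U, dg B W u ≤ U.card * l := by
              rw [← smul_eq_mul]; exact sum_le_card_nsmul _ _ _ hUd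
            rw [hUc] at h1 ⊢
            omega
    have hsumC : Pot l B W - 2 * b - l * (k + k * l + 2 * b) ≤ ∑ x ∈ C0, w x := by
      have h1 : ∑ x ∈ W, w x ≤ ∑ x ∈ C0, w x + ∑ x ∈ N, (l : ℤ) := by
        rw [hC0, hN, sum_filter, sum_filter, ← sum_add_distrib]
        apply sum_le_sum
        intro x _
        have h3 : (0 : ℤ) ≤ dg B1 W x := by positivity
        have h4 : w x ≤ l := by rw [hw]; simp only; linarith
        by_cases h5 : (x ∉ U ∧ ∀ u ∈ U, s(u, x) ∉ B1)
        · by_cases h6 : 0 ≤ w x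
          · rw [if_pos ⟨h5, h6⟩, if_neg (not_not.mpr h5)]; linarith
          · rw [if_neg (fun h => h6 h.2), if_neg (not_not.mpr h5)]; linarith
        · rw [if_neg (fun h => h5 h.1), if_pos h5]; linarith
      rw [sum_const] at h1
      have h2 : ((N.card : ℕ) : ℤ) ≤ k + k * l + 2 * b := by exact_mod_cast hNc
      have h3 : (N.card • (l : ℤ)) ≤ l * (k + k * l + 2 * b) := by
        rw [nsmul_eq_mul, mul_comm]
        exact mul_le_mul_of_nonneg_left h2 (by positivity)
      linarith
    refine star_phase (b := b) (m := m) hg U (by rw [hUc]; exact hgk) w C0.card M1 B1 (K ∪ U) C0 ∅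
      le_rfl hM1 hB1 hMB1 ?_ ?_ ?_
    · refine ⟨?_, ?_, ?_, ?_, subset_union_right, ?_, ?_, ?_⟩
      · intro u hu v hv huv
        rw [mem_union] at hu hv
        rcases hu with hu | hu <;> rcases hv with hv | hv
        · exact hMM (h.clique u hu v hv huv)
        · exact hMM (h.join u hu v (hUW hv))
        · rw [Sym2.eq_swap]; exact hMM (h.join v hv u (hUW hu))
        · exact hQM (hQmem u hu v hv huv)
      · intro u _ v hv; simp at hv
      · intro u hu huU v hv
        rw [mem_union] at hu
        rcases hu with hu | hu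
        · exact hMM (h.join u hu v (hC0W hv))
        · exact absurd hu huU
      · intro u hu v hv
        rw [hC0, mem_filter] at hv
        exact hv.2.1.2 u hu
      · rw [disjoint_union_left]
        refine ⟨h.hKW.mono_right hC0W, ?_⟩
        rw [disjoint_left]
        intro x hx hx'
        rw [hC0, mem_filter] at hx'
        exact hx'.2.1.1 hx
      · exact disjoint_empty_right _
      · exact disjoint_empty_right _
    · intro x hx
      rw [hC0, mem_filter] at hx
      exact hx.2.2
    · intro M' B' D' hM' hB' hBB' hMB' hcl hjn hdis hsub hwt hct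
      refine hcont M' B' (K ∪ U) D' ⟨hM', hB', hMB', hcl, hjn, hdis⟩ ?_ ?_
      · rw [card_union_of_disjoint hKU, hUc]
      · have hD'W : D' ⊆ W := by
          rw [union_empty] at hsub
          exact hsub.trans hC0W
        have h1 : ∑ x ∈ D', w x ≤ Pot (l + 2 * b) B' D' := by
          unfold Pot
          rw [hw, sum_sub_distrib, sum_sub_distrib, sum_const, sum_const, nsmul_eq_mul,
            nsmul_eq_mul]
          have h2 := sum_dg_le B1 B' D' D'
          have h3 : ∑ x ∈ D', dg B1 D' x ≤ ∑ x ∈ D', dg B1 W x :=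
            sum_le_sum fun x _ => dg_mono B1 hD'W x
          have h4 : (B' \ B1).card ≤ b * D'.card := by
            simpa using hct
          have h5 : ((∑ x ∈ D', dg B' D' x : ℕ) : ℤ) ≤ (∑ x ∈ D', dg B1 W x : ℕ) + 2 * (b * D'.card) := by
            have : ∑ x ∈ D', dg B' D' x ≤ ∑ x ∈ D', dg B1 W x + 2 * (b * D'.card) := by omega
            exact_mod_cast this
          push_cast at h5 ⊢
          nlinarith
        have h2 : (g : ℤ) * ∑ x ∈ C0, w x ≤ (g + b) * ∑ x ∈ D', w x := by
          simpa using hwt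
        have hg0 : (0 : ℤ) ≤ g := by positivity
        have hgb : (0 : ℤ) ≤ (g : ℤ) + b := by positivity
        calc (g : ℤ) * (Pot l B W - 2 * b - l * (k + k * l + 2 * b)) ≤ g * ∑ x ∈ C0, w x :=
              mul_le_mul_of_nonneg_left hsumC hg0
          _ ≤ (g + b) * ∑ x ∈ D', w x := h2
          _ ≤ (g + b) * Pot (l + 2 * b) B' D' := mul_le_mul_of_nonneg_left h1 hgb
  by_cases hsM : Q0 ⊆ M
  · exact key M B (Subset.refl _) hsM h.hM (Subset.refl _) h.hB h.hMB (by simp)
  · refine forces_step h.hM h.hB h.hMB Q0 ?_ ?_ ?_ hsM ?_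
    · intro z hz
      obtain ⟨u, hu, v, hv, huv, rfl⟩ := hQform z hz
      rw [mem_Bd, Sym2.mk_isDiag_iff]
      exact huv
    · rw [disjoint_left]
      intro z hz hzB
      obtain ⟨u, hu, v, hv, huv, rfl⟩ := hQform z hz
      exact hUi u hu v hv huv hzB
    · rw [hQ0, Sym2.card_image_offDiag, hUc]
      exact hk
    · intro M' B' h1 h2 h3 h4 h5 h6
      exact key M' B' (subset_union_left.trans h1) (subset_union_right.trans h1) h2 h3 h4 h5 h6

/-- the clique property -/
def HasClique (q : ℕ) (M : Finset (Sym2 V)) : Prop :=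
  ∃ S : Finset V, S.card = q ∧ ∀ u ∈ S, ∀ v ∈ S, u ≠ v → s(u, v) ∈ M

/-- iteration of the phases in the `(50:49)` game with blocks of size `10`. -/
lemma iterate (Λ : ℕ) : ∀ (t l : ℕ) (M B : Finset (Sym2 V)) (K W : Finset V) (q : ℕ),
    Gd M B K W → K.card + 10 * t = q → l + 98 * t ≤ Λ →
    (12 : ℤ) ^ t * (10 * (98 + Λ * (108 + 10 * Λ) + 1)) ≤ Pot l B W →
    Forces 50 49 (Bd V) (HasClique q) M B := by
  intro t
  induction t with
  | zero =>
    intro l M B K W q h hq _ _
    apply forces_of_goal (by norm_num) _ _ M B le_rfl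
    · exact ⟨K, by omega, h.clique⟩
    · intro M M' hMM ⟨S, hS, hS'⟩
      exact ⟨S, hS, fun u hu v hv huv => hMM (hS' u hu v hv huv)⟩
  | succ t ih =>
    intro l M B K W q h hq hl hP
    have hl' : (l : ℤ) ≤ Λ := by exact_mod_cast (by omega : l ≤ Λ)
    have hl0 : (0 : ℤ) ≤ l := by positivity
    have h12 : (1 : ℤ) ≤ 12 ^ t := one_le_pow₀ (by norm_num)
    set X : ℤ := 98 + Λ * (108 + 10 * Λ) with hX
    have hX0 : 0 ≤ X := by positivity
    have herr : (98 : ℤ) + l * (10 + 10 * l + 98) ≤ X := by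
      rw [hX]
      have h1 : (l : ℤ) * (10 + 10 * l + 98) ≤ Λ * (108 + 10 * Λ) := by
        apply mul_le_mul hl' _ (by positivity) (by positivity)
        linarith
      linarith
    have hP1 : 10 * (X + 1) ≤ Pot l B W := by
      rw [pow_succ] at hP
      have : 10 * (X + 1) ≤ 12 ^ t * 12 * (10 * (X + 1)) := by nlinarith
      linarith
    refine phase (g := 5) (k := 10) (l := l) (by norm_num) (by norm_num) (by decide) h ?_ ?_
    · push_cast
      nlinarith
    · intro M' B' K' W' h' hK' hPot'
      refine ih (l + 2 * 49) M' B' K' W' q h' (by omega) (by omega) ?_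
      push_cast at hPot'
      rw [pow_succ] at hP
      have h3 : 12 * (12 ^ t * (10 * (X + 1))) ≤ Pot l B W := by linarith
      nlinarith

/-- In the `(50:49)` game on the complete graph Maker can build a clique with `10 t` vertices, if
the number of vertices is at least `12^t` times a polynomial in `t`. -/
theorem forces_clique (t : ℕ)
    (hN : 12 ^ t * (10 * (98 + (1 + 98 * t) * (108 + 10 * (1 + 98 * t)) + 1)) ≤ Fintype.card V) :
    Forces 50 49 (Bd V) (HasClique (10 * t)) ∅ ∅ := by
  refine iterate (V := V) (1 + 98 * t) t 1 ∅ ∅ ∅ univ (10 * t) ?_ (by simp) le_rfl ?_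
  · exact ⟨empty_subset _, empty_subset _, disjoint_empty_left _, by simp, by simp, by simp⟩
  · unfold Pot dg
    simp only [notMem_empty, filter_false, card_empty]
    simp only [sum_const, card_univ]
    have : ((12 ^ t * (10 * (98 + (1 + 98 * t) * (108 + 10 * (1 + 98 * t)) + 1)) : ℕ) : ℤ) ≤
      (Fintype.card V : ℤ) := by exact_mod_cast hN
    push_cast at this ⊢
    simpa using this

end

end Pool.Agent.H888R3
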