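import Mathlib

set_option autoImplicit false

namespace Pool.Agent.H888R3

open Finset

/-- Maker (to move, `m` edges per turn) can force that at the end of the play his set has `goal`;
Breaker claims `b` edges per turn. A player who cannot claim that many edges claims all the
remaining ones. -/
inductive Forces {E : Type*} [DecidableEq E] (m b : ℕ) (Bd : Finset E) (goal : Finset E → Prop) :
    Finset E → Finset E → Prop
  | done {M B : Finset E} (h0 : Bd \ (M ∪ B) = ∅) (hg : goal M) : Forces m b Bd goal M B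
  | move {M B : Finset E} (hne : (Bd \ (M ∪ B)).Nonempty) (Q : Finset E) (hQ : Q ⊆ Bd \ (M ∪ B))
      (hc : Q.card = min m (Bd \ (M ∪ B)).card)
      (h : ∀ R ⊆ (Bd \ (M ∪ B)) \ Q, R.card = min b ((Bd \ (M ∪ B)) \ Q).card →
        Forces m b Bd goal (M ∪ Q) (B ∪ R)) : Forces m b Bd goal M B

/-- From `Forces` to strategies given as functions of the position. -/
theorem exists_strategy {E : Type*} [DecidableEq E] {m b : ℕ} (hm : 1 ≤ m) {Bd : Finset E}
    {goal : Finset E → Prop} (h : Forces m b Bd goal ∅ ∅) :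
    ∃ σ : Finset E → Finset E → Finset E,
      (∀ M B, σ M B ⊆ Bd \ (M ∪ B) ∧ (σ M B).card = min m (Bd \ (M ∪ B)).card) ∧
      ∀ pM pB R : ℕ → Finset E, pM 0 = ∅ → pB 0 = ∅ →
        (∀ i, pM (i + 1) = pM i ∪ σ (pM i) (pB i)) → (∀ i, pB (i + 1) = pB i ∪ R i) →
        (∀ i, R i ⊆ (Bd \ (pM i ∪ pB i)) \ σ (pM i) (pB i) ∧
          (R i).card = min b ((Bd \ (pM i ∪ pB i)) \ σ (pM i) (pB i)).card) →
        ∃ i, Bd \ (pM i ∪ pB i) = ∅ ∧ goal (pM i) := by
  classical
  obtain ⟨Good, hGood⟩ : ∃ Good : Finset E → Finset E → Finset E → Prop, ∀ M B Q, Good M B Q ↔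
    (Q ⊆ Bd \ (M ∪ B) ∧ Q.card = min m (Bd \ (M ∪ B)).card ∧
      ∀ R ⊆ (Bd \ (M ∪ B)) \ Q, R.card = min b ((Bd \ (M ∪ B)) \ Q).card →
        Forces m b Bd goal (M ∪ Q) (B ∪ R)) := ⟨_, fun _ _ _ => Iff.rfl⟩
  have hex : ∀ M B, ∃ Q : Finset E, (Q ⊆ Bd \ (M ∪ B) ∧ Q.card = min m (Bd \ (M ∪ B)).card) ∧
      ((∃ Q', Good M B Q') → Good M B Q) := by
    intro M B
    by_cases hg : ∃ Q', Good M B Q'
    · obtain ⟨Q', hQ'⟩ := hg
      have h1 := (hGood M B Q').mp hQ'
      exact ⟨Q', ⟨h1.1, h1.2.1⟩, fun _ => hQ'⟩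
    · obtain ⟨Q', hQ', hc⟩ := exists_subset_card_eq (s := Bd \ (M ∪ B))
        (n := min m (Bd \ (M ∪ B)).card) (min_le_right _ _)
      exact ⟨Q', ⟨hQ', hc⟩, fun h => absurd h hg⟩
  choose σ hσ using hex
  refine ⟨σ, fun M B => (hσ M B).1, ?_⟩
  intro pM pB R h0 h0' hM hB hR
  have hinv : ∀ i, Forces m b Bd goal (pM i) (pB i) := by
    intro i
    induction i with
    | zero => rw [h0, h0']; exact h
    | succ i ih =>
      rw [hM, hB]
      obtain ⟨hR1, hR2⟩ := hR i
      cases ih with
      | done he hg =>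
        have h1 : σ (pM i) (pB i) = ∅ := by
          have := (hσ (pM i) (pB i)).1.1
          rw [he] at this
          exact subset_empty.mp this
        have h2 : R i = ∅ := by
          rw [he] at hR1
          have := hR1.trans sdiff_subset
          exact subset_empty.mp this
        rw [h1, h2, union_empty, union_empty]
        exact Forces.done he hg
      | move hne Q hQ hc hf =>
        have h1 : Good (pM i) (pB i) Q := (hGood _ _ _).mpr ⟨hQ, hc, hf⟩
        have h2 := (hGood _ _ _).mp ((hσ (pM i) (pB i)).2 ⟨Q, h1⟩)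
        exact h2.2.2 (R i) hR1 hR2
  have hend : ∃ i, Bd \ (pM i ∪ pB i) = ∅ := by
    by_contra hcon
    push Not at hcon
    have hdec : ∀ i, (Bd \ (pM (i + 1) ∪ pB (i + 1))).card < (Bd \ (pM i ∪ pB i)).card := by
      intro i
      apply card_lt_card
      have h1 := (hσ (pM i) (pB i)).1
      have h2 : 0 < (σ (pM i) (pB i)).card := by
        rw [h1.2]
        have h3 : 0 < (Bd \ (pM i ∪ pB i)).card := card_pos.mpr (by
          rw [nonempty_iff_ne_empty]
          exact Finset.nonempty_iff_ne_empty.mp (hcon i))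
        omega
      obtain ⟨z, hz⟩ := card_pos.mp h2
      refine ⟨?_, ?_⟩
      · rw [hM, hB]
        intro t ht
        simp only [mem_sdiff, mem_union, not_or] at ht ⊢
        exact ⟨ht.1, ht.2.1.1, ht.2.2.1⟩
      · intro hc
        have h4 := hc (h1.1 hz)
        rw [hM] at h4
        simp only [mem_sdiff, mem_union, not_or] at h4
        exact h4.2.1.2 hz
    have hle : ∀ i, (Bd \ (pM i ∪ pB i)).card + i ≤ (Bd \ (pM 0 ∪ pB 0)).card := by
      intro i
      induction i with
      | zero => simp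
      | succ i ih => have := hdec i; omega
    have h1 := hle ((Bd \ (pM 0 ∪ pB 0)).card + 1)
    omega
  obtain ⟨i, hi⟩ := hend
  refine ⟨i, hi, ?_⟩
  have h1 := hinv i
  generalize pM i = M at hi h1 ⊢
  generalize pB i = B at hi h1
  cases h1 with
  | done he hg => exact hg
  | move hne Q hQ hc hf =>
    rw [hi] at hne
    exact absurd hne not_nonempty_empty

section
variable {E : Type*} [DecidableEq E] {m b : ℕ} {Bd : Finset E} {goal : Finset E → Prop}

/-- If the (monotone) goal has been reached, Maker forces it. -/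
lemma forces_of_goal (hm : 1 ≤ m) (hmono : ∀ M M', M ⊆ M' → goal M → goal M') :
    ∀ (n : ℕ) (M B : Finset E), (Bd \ (M ∪ B)).card ≤ n → goal M → Forces m b Bd goal M B := by
  intro n
  induction n with
  | zero =>
    intro M B h hg
    exact Forces.done (card_eq_zero.mp (Nat.le_zero.mp h)) hg
  | succ n ih =>
    intro M B h hg
    by_cases he : Bd \ (M ∪ B) = ∅
    · exact Forces.done he hg
    · have hne : (Bd \ (M ∪ B)).Nonempty := nonempty_iff_ne_empty.mpr he
      obtain ⟨Q, hQ, hc⟩ := exists_subset_card_eq (s := Bd \ (M ∪ B))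
        (n := min m (Bd \ (M ∪ B)).card) (min_le_right _ _)
      refine Forces.move hne Q hQ hc ?_
      intro R hR _
      apply ih _ _ _ (hmono _ _ subset_union_left hg)
      have hQpos : 0 < Q.card := by
        rw [hc]; have := hne.card_pos; omega
      have hlt : (Bd \ (M ∪ Q ∪ (B ∪ R))).card < (Bd \ (M ∪ B)).card := by
        apply card_lt_card
        obtain ⟨z, hz⟩ := card_pos.mp hQpos
        refine ⟨?_, ?_⟩
        · intro t ht
          simp only [mem_sdiff, mem_union, not_or] at ht ⊢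
          exact ⟨ht.1, ht.2.1.1, ht.2.2.1⟩
        · intro hcon
          have h4 := hcon (hQ hz)
          simp only [mem_sdiff, mem_union, not_or] at h4
          exact h4.2.1.2 hz
      omega

/-- One Maker turn in which he claims (at least) the edges of `Q0` not yet claimed by him. -/
lemma forces_step {M B : Finset E} (hM : M ⊆ Bd) (hB : B ⊆ Bd) (hMB : Disjoint M B)
    (Q0 : Finset E) (hQ0 : Q0 ⊆ Bd) (hQB : Disjoint Q0 B) (hQc : Q0.card ≤ m) (hne : ¬ Q0 ⊆ M)
    (h : ∀ M' B', M ∪ Q0 ⊆ M' → M' ⊆ Bd → B ⊆ B' → B' ⊆ Bd → Disjoint M' B' →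
      (B' \ B).card ≤ b → Forces m b Bd goal M' B') : Forces m b Bd goal M B := by
  have h1 : Q0 \ M ⊆ Bd \ (M ∪ B) := by
    intro z hz
    rw [mem_sdiff] at hz
    rw [mem_sdiff, mem_union, not_or]
    exact ⟨hQ0 hz.1, hz.2, fun hb => (disjoint_left.mp hQB) hz.1 hb⟩
  have h2 : (Q0 \ M).card ≤ min m (Bd \ (M ∪ B)).card :=
    le_min ((card_le_card sdiff_subset).trans hQc) (card_le_card h1)
  obtain ⟨Q, hQ1, hQ2, hQ3⟩ := exists_subsuperset_card_eq h1 h2 (min_le_right _ _)
  have hfree : (Bd \ (M ∪ B)).Nonempty := by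
    rw [not_subset] at hne
    obtain ⟨z, hz, hzM⟩ := hne
    exact ⟨z, h1 (mem_sdiff.mpr ⟨hz, hzM⟩)⟩
  refine Forces.move hfree Q hQ2 hQ3 ?_
  intro R hR hRc
  apply h
  · intro z hz
    rw [mem_union] at hz ⊢
    by_cases hzM : z ∈ M
    · exact Or.inl hzM
    · rcases hz with hz | hz
      · exact absurd hz hzM
      · exact Or.inr (hQ1 (mem_sdiff.mpr ⟨hz, hzM⟩))
  · intro z hz
    rw [mem_union] at hz
    rcases hz with hz | hz
    · exact hM hz
    · exact (mem_sdiff.mp (hQ2 hz)).1
  · exact subset_union_left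
  · intro z hz
    rw [mem_union] at hz
    rcases hz with hz | hz
    · exact hB hz
    · exact (mem_sdiff.mp (mem_sdiff.mp (hR hz)).1).1
  · rw [disjoint_left]
    intro z hz hz'
    rw [mem_union] at hz hz'
    rcases hz with hz | hz <;> rcases hz' with hz' | hz'
    · exact (disjoint_left.mp hMB) hz hz'
    · have := (mem_sdiff.mp (mem_sdiff.mp (hR hz')).1).2
      exact this (mem_union_left _ hz)
    · have := (mem_sdiff.mp (hQ2 hz)).2
      exact this (mem_union_right _ hz')
    · exact (mem_sdiff.mp (hR hz')).2 hz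
  · calc ((B ∪ R) \ B).card ≤ R.card := by
          apply card_le_card
          intro z hz
          rw [mem_sdiff, mem_union] at hz
          tauto
      _ ≤ b := by rw [hRc]; exact min_le_left _ _

end

end Pool.Agent.H888R3
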