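import Pool.Agent.H96R3.AE.Game
import Pool.Agent.H96R3.AE.NT4

set_option autoImplicit false

namespace Pool.Agent.H888R3

/-- Avoider wins the strict `(1:b)` triangle game on `K_n` for all `b ≥ c₁ n^(3/2)`, for infinitely
many `n` (from the game lemma and the number theory lemma of helper96). -/
theorem k3_core (c₁ : ℝ) (hc1 : 0 < c₁) (n₀ : ℕ) : ∃ n : ℕ, n₀ ≤ n ∧ ∀ b : ℕ,
    c₁ * (n : ℝ) ^ (3 / 2 : ℝ) ≤ (b : ℝ) →
      ∀ S : Set (Finset (Sym2 (Fin n)) × Finset (Sym2 (Fin n))), ¬ Pool.Agent.H96R3.AE.IsWin n b S := by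
  -- constants
  obtain ⟨k, hk⟩ := exists_nat_ge (1 / c₁ ^ 2)
  have hkc : 1 ≤ (k : ℝ) * c₁ ^ 2 := by
    rwa [div_le_iff₀ (by positivity)] at hk
  have hk1 : 1 ≤ k := by
    rcases Nat.eq_zero_or_pos k with h0 | h0
    · rw [h0] at hkc; norm_num at hkc
    · exact h0
  set S0 := k * (k - 1) + 1 with hS0
  obtain ⟨n, hn, hnt⟩ := Pool.Agent.H96R3.AE.nt_lemma (k + 4) S0 (max n₀ (4 * S0 + 4))
    (by omega) (by omega)
  have hn1 : n₀ ≤ n := (le_max_left _ _).trans hn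
  have hn2 : 4 * S0 + 4 ≤ n := (le_max_right _ _).trans hn
  refine ⟨n, hn1, ?_⟩
  intro b hb S hwin
  have hnpos : (0 : ℝ) < n := by exact_mod_cast (by omega : 0 < n)
  have hcube : n ^ 3 ≤ k * (b + 1) ^ 2 := by
    have h1 : ((n : ℝ) ^ (3 / 2 : ℝ)) ^ 2 = (n : ℝ) ^ 3 := by
      rw [← Real.rpow_natCast, ← Real.rpow_mul hnpos.le, ← Real.rpow_natCast]
      norm_num
    have h2 : (c₁ * (n : ℝ) ^ (3 / 2 : ℝ)) ^ 2 ≤ (b : ℝ) ^ 2 := by
      have h0 : 0 ≤ c₁ * (n : ℝ) ^ (3 / 2 : ℝ) := by positivity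
      gcongr
    rw [mul_pow, h1] at h2
    have h3 : (n : ℝ) ^ 3 ≤ k * (b + 1) ^ 2 := by
      calc (n : ℝ) ^ 3 = 1 * (n : ℝ) ^ 3 := by ring
        _ ≤ (k * c₁ ^ 2) * (n : ℝ) ^ 3 := by gcongr
        _ = k * (c₁ ^ 2 * (n : ℝ) ^ 3) := by ring
        _ ≤ k * (b : ℝ) ^ 2 := by gcongr
        _ ≤ k * (b + 1) ^ 2 := by gcongr; linarith
    exact_mod_cast h3
  set N := n.choose 2 with hN
  have h2N : 2 * N = n * (n - 1) := by
    rw [hN, Nat.choose_two_right, Nat.mul_div_cancel' (Nat.even_mul_pred_self n).two_dvd]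
  obtain ⟨n', rfl⟩ : ∃ n', n = n' + 1 := ⟨n - 1, by omega⟩
  rw [Nat.add_sub_cancel] at h2N
  have hN1 : 1 ≤ N := by
    have : 0 < (n' + 1) * n' := by
      apply Nat.mul_pos <;> omega
    omega
  set D := b + 1 with hD
  set r := (N - 1) % D + 1 with hr
  set m := (N - 1) / D with hm
  have hND : N = r + m * D := by
    have h1 := Nat.mod_add_div (N - 1) D
    have h2 : m * D = D * ((N - 1) / D) := by rw [hm]; ring
    omega
  have hrD : r ≤ b + 1 := by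
    have := Nat.mod_lt (N - 1) (show 0 < D by omega)
    omega
  have hr1 : r ≤ k * (k - 1) := by
    by_contra hlt
    push Not at hlt
    exact Pool.Agent.H96R3.AE.avoider_wins (n' + 1) b k r m hcube hrD hlt hND S hwin
  have hDn : D ^ 2 < (n' + 1) ^ 3 := by
    by_contra hlt
    push Not at hlt
    exact Pool.Agent.H96R3.AE.avoider_wins (n' + 1) b 1 r m (by rw [one_mul]; exact hlt) hrD
      (by omega) hND S hwin
  have hD0 : 0 < D ^ 2 := by positivity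
  refine hnt r m D (by omega) (by omega) hND ?_ ?_
  · -- lower bound for m
    have h1 : (n' + 1) ^ 2 ≤ 4 * (m * D) := by
      have h2 : 4 * (m * D) + 4 * r = 2 * ((n' + 1) * n') := by omega
      have h3 : r ≤ S0 := by omega
      have h4 : 4 * S0 + 3 ≤ n' := by omega
      nlinarith
    have h2 : ((n' + 1) ^ 2) ^ 2 ≤ (4 * (m * D)) ^ 2 := Nat.pow_le_pow_left h1 2
    have h3 : (n' + 1) * D ^ 2 ≤ (16 * m ^ 2) * D ^ 2 := by
      calc (n' + 1) * D ^ 2 ≤ (n' + 1) * (n' + 1) ^ 3 := Nat.mul_le_mul_left _ hDn.le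
        _ = ((n' + 1) ^ 2) ^ 2 := by ring
        _ ≤ (4 * (m * D)) ^ 2 := h2
        _ = (16 * m ^ 2) * D ^ 2 := by ring
    have h4 : n' + 1 ≤ 16 * m ^ 2 := Nat.le_of_mul_le_mul_right h3 hD0
    have h5 : 16 ≤ (k + 4) ^ 2 := by nlinarith
    exact h4.trans (Nat.mul_le_mul_right _ h5)
  · have h1 : 2 * (m * D) ≤ (n' + 1) ^ 2 := by
      have : (n' + 1) * n' ≤ (n' + 1) ^ 2 := by nlinarith
      omega
    have h2 : (2 * (m * D)) ^ 2 ≤ ((n' + 1) ^ 2) ^ 2 := Nat.pow_le_pow_left h1 2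
    have h3 : (4 * m ^ 2) * D ^ 2 ≤ ((n' + 1) * k) * D ^ 2 := by
      calc (4 * m ^ 2) * D ^ 2 = (2 * (m * D)) ^ 2 := by ring
        _ ≤ ((n' + 1) ^ 2) ^ 2 := h2
        _ = (n' + 1) * (n' + 1) ^ 3 := by ring
        _ ≤ (n' + 1) * (k * D ^ 2) := Nat.mul_le_mul_left _ hcube
        _ = ((n' + 1) * k) * D ^ 2 := by ring
    have h4 : 4 * m ^ 2 ≤ (n' + 1) * k := Nat.le_of_mul_le_mul_right h3 hD0
    have h5 : (n' + 1) * k ≤ (k + 4) ^ 2 * (n' + 1) := by nlinarith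
    omega

end Pool.Agent.H888R3
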