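import Mathlib

set_option autoImplicit false

/-!
Enforcer wins the strict `(1:b)` game of the path with two edges on `K_n` for all `b` up to a
constant times `n^(3/2)`.
-/

namespace Pool.Agent.H888R3.P3

open Finset

variable {n : ℕ}

/-- the board -/
def Ed (n : ℕ) : Finset (Sym2 (Fin n)) := Finset.univ.filter (fun e : Sym2 (Fin n) => ¬ e.IsDiag)

lemma mem_Ed (a b : Fin n) : s(a, b) ∈ Ed n ↔ a ≠ b := by simp [Ed]

/-- `A` contains two adjacent edges -/
def PP (A : Finset (Sym2 (Fin n))) : Prop := ∃ x y z : Fin n, x ≠ z ∧ s(x, y) ∈ A ∧ s(y, z) ∈ A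

/-- touched vertices -/
def tv (A : Finset (Sym2 (Fin n))) : Finset (Fin n) := univ.filter (fun x => ∃ u, s(x, u) ∈ A)

lemma mem_tv {A : Finset (Sym2 (Fin n))} {x : Fin n} : x ∈ tv A ↔ ∃ u, s(x, u) ∈ A := by
  simp [tv]

/-- edges touching `tv A` -/
def te (A : Finset (Sym2 (Fin n))) : Finset (Sym2 (Fin n)) :=
  (Ed n).filter (fun e => ∃ x ∈ tv A, x ∈ e)

lemma mem_te {A : Finset (Sym2 (Fin n))} {e : Sym2 (Fin n)} :
    e ∈ te A ↔ e ∈ Ed n ∧ ∃ x ∈ tv A, x ∈ e := by simp [te]

lemma tv_mono {A A' : Finset (Sym2 (Fin n))} (h : A ⊆ A') : tv A ⊆ tv A' := by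
  intro x hx
  rw [mem_tv] at hx ⊢
  obtain ⟨u, hu⟩ := hx
  exact ⟨u, h hu⟩

lemma te_mono {A A' : Finset (Sym2 (Fin n))} (h : A ⊆ A') : te A ⊆ te A' := by
  intro e he
  rw [mem_te] at he ⊢
  obtain ⟨h1, x, hx, hxe⟩ := he
  exact ⟨h1, x, tv_mono h hx, hxe⟩

lemma sub_te {A : Finset (Sym2 (Fin n))} (hA : A ⊆ Ed n) : A ⊆ te A := by
  intro e he
  induction e with
  | _ x y => exact mem_te.mpr ⟨hA he, x, mem_tv.mpr ⟨y, he⟩, Sym2.mem_mk_left x y⟩

/-- the free touched edges -/
def tf (A B : Finset (Sym2 (Fin n))) : Finset (Sym2 (Fin n)) := te A \ (A ∪ B)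

lemma PP_of_touch {A : Finset (Sym2 (Fin n))} {e : Sym2 (Fin n)} (he : e ∈ te A) (heA : e ∉ A) :
    PP (insert e A) := by
  obtain ⟨_, x, hx, hxe⟩ := mem_te.mp he
  obtain ⟨u, hu⟩ := mem_tv.mp hx
  obtain ⟨y, rfl⟩ := (Sym2.mem_iff_exists.mp hxe)
  refine ⟨y, x, u, ?_, ?_, ?_⟩
  · rintro rfl; exact heA hu
  · rw [Sym2.eq_swap]; exact mem_insert_self _ _
  · exact mem_insert_of_mem hu

lemma PP_mono {A A' : Finset (Sym2 (Fin n))} (h : A ⊆ A') (hP : PP A) : PP A' := by
  obtain ⟨x, y, z, h1, h2, h3⟩ := hP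
  exact ⟨x, y, z, h1, h h2, h h3⟩

lemma not_PP_insert {A : Finset (Sym2 (Fin n))} {e : Sym2 (Fin n)} (he : e ∈ Ed n)
    (hA : ¬ PP A) (ht : e ∉ te A) : ¬ PP (insert e A) := by
  have hnt : ∀ x ∈ e, ∀ u, s(x, u) ∉ A := by
    intro x hx u hu
    exact ht (mem_te.mpr ⟨he, x, mem_tv.mpr ⟨u, hu⟩, hx⟩)
  rintro ⟨x, y, z, hxz, h1, h2⟩
  rw [mem_insert] at h1 h2
  rcases h1 with h1 | h1 <;> rcases h2 with h2 | h2
  · rw [← h2] at h1
    rw [Sym2.eq_iff] at h1
    rcases h1 with ⟨h3, h4⟩ | ⟨h3, _⟩
    · exact hxz (h3.trans h4)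
    · exact hxz h3
  · exact hnt y (by rw [← h1]; exact Sym2.mem_mk_right x y) z h2
  · exact hnt y (by rw [← h2]; exact Sym2.mem_mk_left y z) x (by rw [Sym2.eq_swap]; exact h1)
  · exact hA ⟨x, y, z, hxz, h1, h2⟩

lemma fib2 {s : Finset (Fin n × Fin n)} {t : Finset (Sym2 (Fin n))}
    (h : ∀ p ∈ s, s(p.1, p.2) ∈ t) : s.card ≤ 2 * t.card := by
  apply card_le_mul_card_image_of_maps_to (f := fun p : Fin n × Fin n => s(p.1, p.2)) h
  intro z _
  induction z with
  | _ a c =>
    calc _ ≤ ({(a, c), (c, a)} : Finset (Fin n × Fin n)).card := by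
          apply card_le_card
          intro p hp
          have h := (mem_filter.mp hp).2
          simp only [Sym2.eq_iff] at h
          simp only [mem_insert, mem_singleton, Prod.ext_iff]
          exact h
      _ ≤ 2 := card_le_two

/-- many free touched edges -/
lemma tf_lower {A B : Finset (Sym2 (Fin n))} {W X : Finset (Fin n)} (hP : ¬ PP A)
    (hB : ∀ e ∈ B, ∀ x ∈ e, x ∈ W) (hX : X ⊆ tv A) :
    X.card * (Wᶜ.card - 2) ≤ 2 * (tf A B).card := by
  set P : Finset (Fin n × Fin n) :=
    (X ×ˢ Wᶜ).filter (fun p => p.1 ≠ p.2 ∧ s(p.1, p.2) ∉ A) with hPd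
  have h1 : P.card ≤ 2 * (tf A B).card := by
    apply fib2
    intro p hp
    rw [hPd, mem_filter, mem_product] at hp
    unfold tf
    rw [mem_sdiff, mem_union, not_or, mem_te, mem_Ed]
    refine ⟨⟨hp.2.1, p.1, hX hp.1.1, Sym2.mem_mk_left _ _⟩, hp.2.2, ?_⟩
    intro hb
    have := hB _ hb p.2 (Sym2.mem_mk_right _ _)
    exact (mem_compl.mp hp.1.2) this
  refine le_trans ?_ h1
  rw [hPd, card_filter, sum_product]
  rw [← smul_eq_mul]
  apply card_nsmul_le_sum
  intro x _
  rw [← card_filter]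
  have h2 : Wᶜ \ (insert x (univ.filter (fun u => s(x, u) ∈ A))) ⊆
      Wᶜ.filter (fun u => x ≠ u ∧ s(x, u) ∉ A) := by
    intro u hu
    simp only [mem_sdiff, mem_insert, mem_filter, mem_univ, true_and, not_or] at hu ⊢
    exact ⟨hu.1, fun h => hu.2.1 h.symm, hu.2.2⟩
  refine le_trans ?_ (card_le_card h2)
  have h3 : (insert x (univ.filter (fun u => s(x, u) ∈ A))).card ≤ 2 := by
    refine (card_insert_le _ _).trans ?_
    have : (univ.filter (fun u => s(x, u) ∈ A)).card ≤ 1 := by
      rw [card_le_one]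
      intro u hu v hv
      simp only [mem_filter, mem_univ, true_and] at hu hv
      by_contra huv
      exact hP ⟨u, x, v, huv, by rw [Sym2.eq_swap]; exact hu, hv⟩
    omega
  have h4 := le_card_sdiff (insert x (univ.filter (fun u => s(x, u) ∈ A))) Wᶜ
  omega

/-- edges inside `W` -/
def EW (W : Finset (Fin n)) : Finset (Sym2 (Fin n)) := W.offDiag.image (Function.uncurry Sym2.mk)

lemma card_EW (W : Finset (Fin n)) : (EW W).card = W.card.choose 2 := Sym2.card_image_offDiag W

lemma EW_sub (W : Finset (Fin n)) : EW W ⊆ Ed n := by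
  intro e he
  unfold EW at he
  rw [mem_image] at he
  obtain ⟨⟨a, c⟩, hp, rfl⟩ := he
  rw [mem_offDiag] at hp
  exact (mem_Ed a c).mpr hp.2.2

lemma EW_mem {W : Finset (Fin n)} {e : Sym2 (Fin n)} (he : e ∈ EW W) : ∀ x ∈ e, x ∈ W := by
  unfold EW at he
  rw [mem_image] at he
  obtain ⟨⟨a, c⟩, hp, rfl⟩ := he
  rw [mem_offDiag] at hp
  intro x hx
  simp only [Function.uncurry] at hx
  rcases Sym2.mem_iff.mp hx with rfl | rfl
  · exact hp.1
  · exact hp.2.1

lemma card_tv (A : Finset (Sym2 (Fin n))) : (tv A).card ≤ 2 * A.card := by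
  have h1 : tv A ⊆ A.biUnion (fun e => univ.filter (fun x => x ∈ e)) := by
    intro x hx
    obtain ⟨u, hu⟩ := mem_tv.mp hx
    rw [mem_biUnion]
    exact ⟨_, hu, by simp⟩
  refine (card_le_card h1).trans ((card_biUnion_le).trans ?_)
  rw [mul_comm]
  apply sum_le_card_nsmul
  intro e _
  induction e with
  | _ x y =>
    have : univ.filter (fun z => z ∈ s(x, y)) ⊆ {x, y} := by
      intro z hz
      simp only [mem_filter, mem_univ, true_and, Sym2.mem_iff] at hz
      simpa using hz
    exact (card_le_card this).trans card_le_two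

/-- untouched free edges inside `W` -/
lemma untouched_lower (A B : Finset (Sym2 (Fin n))) (W : Finset (Fin n)) :
    W.card.choose 2 ≤ (EW W \ (te A ∪ B)).card + B.card + 2 * A.card * W.card := by
  have h1 : EW W ⊆ (EW W \ (te A ∪ B)) ∪ (B ∪ (tv A ×ˢ W).image (fun p => s(p.1, p.2))) := by
    intro e he
    by_cases h2 : e ∈ te A ∪ B
    · rw [mem_union] at h2
      rcases h2 with h2 | h2
      · obtain ⟨_, x, hx, hxe⟩ := mem_te.mp h2
        obtain ⟨y, rfl⟩ := Sym2.mem_iff_exists.mp hxe
        apply mem_union_right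
        apply mem_union_right
        rw [mem_image]
        exact ⟨(x, y), mem_product.mpr ⟨hx, EW_mem he y (Sym2.mem_mk_right x y)⟩, rfl⟩
      · exact mem_union_right _ (mem_union_left _ h2)
    · exact mem_union_left _ (mem_sdiff.mpr ⟨he, h2⟩)
  have h2 := card_le_card h1
  rw [card_EW] at h2
  have h3 : ((tv A ×ˢ W).image (fun p => s(p.1, p.2))).card ≤ 2 * A.card * W.card := by
    refine card_image_le.trans ?_
    rw [card_product]
    exact Nat.mul_le_mul_right _ (card_tv A)
  have h4 := card_union_le (EW W \ (te A ∪ B)) (B ∪ (tv A ×ˢ W).image (fun p => s(p.1, p.2)))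
  have h5 := card_union_le B ((tv A ×ˢ W).image (fun p => s(p.1, p.2)))
  omega

/-- positions (Avoider to move) in which Enforcer is winning -/
def Inv (b : ℕ) (W : Finset (Fin n))
    (p : Finset (Sym2 (Fin n)) × Finset (Sym2 (Fin n))) : Prop :=
  p.1 ⊆ Ed n ∧ (PP p.1 ∨
    (¬ PP p.1 ∧ (∀ e ∈ p.2, ∀ x ∈ e, x ∈ W) ∧ p.2.card = b * p.1.card ∧
      p.1.card * (Wᶜ.card - 2) ≤ 2 * b ∧ ∃ X ⊆ tv p.1, X.card = p.1.card) ∨
    b + 1 ≤ (tf p.1 p.2).card ∨
    (Ed n \ (p.1 ∪ p.2) ⊆ te p.1 ∧ (Ed n \ (p.1 ∪ p.2)).Nonempty))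

/-- Enforcer's answer when there are many free touched edges -/
lemma answer {b : ℕ} {W : Finset (Fin n)} {A B : Finset (Sym2 (Fin n))} (hA : A ⊆ Ed n)
    (h : b + 1 ≤ (tf A B).card) :
    ∃ T ⊆ Ed n \ (A ∪ B), T.card = min b (Ed n \ (A ∪ B)).card ∧ Inv b W (A, B ∪ T) := by
  have htf : tf A B ⊆ Ed n \ (A ∪ B) := by
    intro e he
    unfold tf at he
    rw [mem_sdiff] at he ⊢
    exact ⟨(mem_te.mp he.1).1, he.2⟩
  have hFc : b + 1 ≤ (Ed n \ (A ∪ B)).card := h.trans (card_le_card htf)
  have hmin : min b (Ed n \ (A ∪ B)).card = b := min_eq_left (by omega)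
  set U := (Ed n \ (A ∪ B)) \ te A with hU
  have hdisj : Disjoint U (tf A B) := by
    rw [disjoint_left]
    intro e he he'
    rw [hU, mem_sdiff] at he
    unfold tf at he'
    exact he.2 (mem_sdiff.mp he').1
  have hUtf : U ∪ tf A B = Ed n \ (A ∪ B) := by
    ext e
    rw [hU, mem_union]
    unfold tf
    simp only [mem_sdiff]
    constructor
    · rintro (h1 | h1)
      · exact h1.1
      · exact ⟨(mem_te.mp h1.1).1, h1.2⟩
    · intro h1
      by_cases h2 : e ∈ te A
      · exact Or.inr ⟨h2, h1.2⟩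
      · exact Or.inl ⟨h1, h2⟩
  by_cases hUb : b ≤ U.card
  · obtain ⟨T, hTU, hTc⟩ := exists_subset_card_eq hUb
    refine ⟨T, hTU.trans sdiff_subset, by rw [hTc, hmin], hA, ?_⟩
    right; right; left
    have : tf A B ⊆ tf A (B ∪ T) := by
      intro e he
      have he' := he
      unfold tf at he ⊢
      rw [mem_sdiff, mem_union, not_or] at he
      rw [mem_sdiff, mem_union, mem_union, not_or, not_or]
      refine ⟨he.1, he.2.1, he.2.2, ?_⟩
      intro heT
      exact (disjoint_left.mp hdisj) (hTU heT) he'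
    exact h.trans (card_le_card this)
  · push Not at hUb
    obtain ⟨T, hUT, hTF, hTc⟩ := exists_subsuperset_card_eq (s := U) (t := Ed n \ (A ∪ B)) (n := b)
      sdiff_subset hUb.le (by omega)
    refine ⟨T, hTF, by rw [hTc, hmin], hA, ?_⟩
    right; right; right
    have hsub : Ed n \ (A ∪ (B ∪ T)) ⊆ te A := by
      intro e he
      rw [mem_sdiff, mem_union, mem_union, not_or, not_or] at he
      by_contra hne
      apply he.2.2.2
      apply hUT
      rw [hU, mem_sdiff, mem_sdiff, mem_union, not_or]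
      exact ⟨⟨he.1, he.2.1, he.2.2.1⟩, hne⟩
    refine ⟨hsub, ?_⟩
    have h1 : (Ed n \ (A ∪ B)) \ T ⊆ Ed n \ (A ∪ (B ∪ T)) := by
      intro e he
      simp only [mem_sdiff, mem_union, not_or] at he ⊢
      exact ⟨he.1.1, he.1.2.1, he.1.2.2, he.2⟩
    have h2 : 0 < ((Ed n \ (A ∪ B)) \ T).card := by
      rw [card_sdiff_of_subset hTF]
      omega
    exact (card_pos.mp h2).mono h1

/-- Enforcer wins the game of the two-edge path -/
theorem enforcer {b : ℕ} (W : Finset (Fin n))
    (hC : ∀ j : ℕ, j * (Wᶜ.card - 2) ≤ 2 * b → b * j + 2 * j * W.card < W.card.choose 2) :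
    ∃ S : Set (Finset (Sym2 (Fin n)) × Finset (Sym2 (Fin n))), (∅, ∅) ∈ S ∧
      ∀ p ∈ S, p.1 ⊆ Ed n ∧ (Ed n \ (p.1 ∪ p.2) = ∅ → PP p.1) ∧
        ∀ e ∈ Ed n \ (p.1 ∪ p.2), ∃ T ⊆ Ed n \ insert e (p.1 ∪ p.2),
          T.card = min b (Ed n \ insert e (p.1 ∪ p.2)).card ∧ (insert e p.1, p.2 ∪ T) ∈ S := by
  refine ⟨{p | Inv b W p}, ?_, ?_⟩
  · refine ⟨empty_subset _, Or.inr (Or.inl ⟨?_, by simp, by simp, by simp, ∅, by simp, by simp⟩)⟩
    rintro ⟨x, y, z, _, h, _⟩
    simp at h
  · rintro ⟨A, B⟩ ⟨hA, hp⟩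
    refine ⟨hA, ?_, ?_⟩
    · intro hfull
      rcases hp with hp | hp | hp | hp
      · exact hp
      · exfalso
        obtain ⟨h1, h2, h3, h4, _⟩ := hp
        have h5 := hC _ h4
        have h6 := untouched_lower A B W
        simp only at h3 hfull h5
        have h7 : EW W \ (te A ∪ B) ⊆ Ed n \ (A ∪ B) := by
          intro e he
          simp only [mem_sdiff, mem_union, not_or] at he ⊢
          exact ⟨EW_sub W he.1, fun h => he.2.1 (sub_te hA h), he.2.2⟩
        rw [hfull, subset_empty] at h7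
        rw [h7, h3] at h6
        simp only [card_empty, zero_add] at h6
        omega
      · exfalso
        have h1 : tf A B ⊆ Ed n \ (A ∪ B) := by
          intro e he
          unfold tf at he
          rw [mem_sdiff] at he ⊢
          exact ⟨(mem_te.mp he.1).1, he.2⟩
        simp only at hp hfull
        rw [hfull, subset_empty] at h1
        rw [h1] at hp
        simp at hp
      · exfalso
        have := hp.2
        rw [hfull] at this
        exact not_nonempty_empty this
    · intro e he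
      have hins : insert e (A ∪ B) = insert e A ∪ B := by rw [insert_union]
      simp only at he ⊢
      rw [hins]
      have heE : e ∈ Ed n := (mem_sdiff.mp he).1
      have heA : e ∉ A := fun h => (mem_sdiff.mp he).2 (mem_union_left _ h)
      have hA' : insert e A ⊆ Ed n := by
        intro z hz
        rcases mem_insert.mp hz with rfl | hz
        · exact heE
        · exact hA hz
      have arb : PP (insert e A) → ∃ T ⊆ Ed n \ (insert e A ∪ B),
          T.card = min b (Ed n \ (insert e A ∪ B)).card ∧ (insert e A, B ∪ T) ∈ {p | Inv b W p} := by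
        intro hPP
        obtain ⟨T, hT, hTc⟩ := exists_subset_card_eq (s := Ed n \ (insert e A ∪ B))
          (n := min b (Ed n \ (insert e A ∪ B)).card) (min_le_right _ _)
        exact ⟨T, hT, hTc, hA', Or.inl hPP⟩
      by_cases het : e ∈ te A
      · exact arb (PP_of_touch het heA)
      by_cases htf : b + 1 ≤ (tf (insert e A) B).card
      · obtain ⟨T, h1, h2, h3⟩ := answer (W := W) hA' htf
        exact ⟨T, h1, h2, h3⟩
      rcases hp with hp | hp | hp | hp
      · exact arb (PP_mono (subset_insert _ _) hp)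
      · obtain ⟨h1, h2, h3, h4, X, hX, hXc⟩ := hp
        simp only at h1 h2 h3 h4 hX hXc
        have hP' : ¬ PP (insert e A) := not_PP_insert heE h1 het
        have hAc : (insert e A).card = A.card + 1 := card_insert_of_notMem heA
        obtain ⟨X', hX', hXc'⟩ : ∃ X' ⊆ tv (insert e A), X'.card = (insert e A).card := by
          induction e with
          | _ x y =>
            refine ⟨insert x X, ?_, ?_⟩
            · intro z hz
              rcases mem_insert.mp hz with rfl | hz
              · exact mem_tv.mpr ⟨y, mem_insert_self _ _⟩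
              · exact tv_mono (subset_insert _ _) (hX hz)
            · rw [hAc, card_insert_of_notMem, hXc]
              intro hxX
              exact het (mem_te.mpr ⟨heE, x, hX hxX, Sym2.mem_mk_left x y⟩)
        have h5 := tf_lower hP' h2 hX'
        have h6 : (insert e A).card * (Wᶜ.card - 2) ≤ 2 * b := by
          rw [← hXc']
          omega
        have h7 := hC _ h6
        have h8 := untouched_lower (insert e A) B W
        have h9 : b ≤ (EW W \ (te (insert e A) ∪ B)).card := by
          rw [hAc] at h7 h8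
          rw [h3] at h8
          have : b * (A.card + 1) = b * A.card + b := by ring
          omega
        obtain ⟨T, hT, hTc⟩ := exists_subset_card_eq h9
        have hTF : T ⊆ Ed n \ (insert e A ∪ B) := by
          intro z hz
          have := hT hz
          simp only [mem_sdiff, mem_union, not_or] at this
          rw [mem_sdiff, mem_union, not_or]
          exact ⟨EW_sub W this.1, fun h => this.2.1 (sub_te hA' h), this.2.2⟩
        refine ⟨T, hTF, ?_, hA', Or.inr (Or.inl ⟨hP', ?_, ?_, h6, X', hX', hXc'⟩)⟩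
        · rw [hTc, min_eq_left]
          rw [← hTc]; exact card_le_card hTF
        · intro z hz
          rcases mem_union.mp hz with hz | hz
          · exact h2 z hz
          · exact EW_mem (mem_sdiff.mp (hT hz)).1
        · show (B ∪ T).card = b * (insert e A).card
          have hBT : Disjoint B T := by
            rw [disjoint_left]
            intro z hz hz'
            have := (mem_sdiff.mp (hT hz')).2
            exact this (mem_union_right _ hz)
          rw [card_union_of_disjoint hBT, hTc, h3, hAc]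
          ring
      · exfalso
        apply htf
        refine le_trans hp (card_le_card ?_)
        intro z hz
        simp only at hz
        unfold tf at hz ⊢
        rw [mem_sdiff, mem_union, not_or] at hz ⊢
        refine ⟨te_mono (subset_insert _ _) hz.1, ?_, hz.2.2⟩
        intro h
        rcases mem_insert.mp h with rfl | h
        · exact het hz.1
        · exact hz.2.1 h
      · exact absurd (hp.1 he) het

end Pool.Agent.H888R3.P3
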